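import Pool.Agent.Helper308.KissMain

/-!
# MP_a5101a_co: an explicit constant for the mean distance of thirteen kissing-type centres

For every admissible configuration of 13 points of `ℝ³` the mean distance to the origin is at
least `2.002`; hence `2.002 ≤ m`.  An explicit rational configuration gives `m ≤ 2.05772`.
-/

set_option autoImplicit false

namespace Pool.Agent.Results.MP_a5101a_co.ExplicitBound

open scoped BigOperators

/-- Admissible configurations: 13 points of norm at least `2` with mutual distances at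
least `2`. -/
def Admissible (x : Fin 13 → EuclideanSpace ℝ (Fin 3)) : Prop :=
  (∀ i, 2 ≤ ‖x i‖) ∧ ∀ i j, i ≠ j → 2 ≤ ‖x i - x j‖

/-- The mean distance to the origin. -/
noncomputable def M (x : Fin 13 → EuclideanSpace ℝ (Fin 3)) : ℝ :=
  (1 / 13) * ∑ i, ‖x i‖

/-- The infimum of the mean distance over all admissible configurations. -/
noncomputable def m : ℝ :=
  sInf {r : ℝ | ∃ x : Fin 13 → EuclideanSpace ℝ (Fin 3), Admissible x ∧ M x = r}

/-- Coordinates (multiplied by `10^7`) of an explicit configuration. -/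
def cfg : Fin 13 → Fin 3 → ℤ := ![
  ![-9051108, 3207875, 17543863],
  ![-7884306, -4084885, -17920703],
  ![3928553, -11883469, 15599673],
  ![-2976354, 18697461, 6445653],
  ![-16315672, -10478702, 4898553],
  ![14053143, 13932506, -2897345],
  ![-3094881, 14740199, -13158586],
  ![-18100633, 8359267, -1577945],
  ![10479406, 7013112, 15524125],
  ![11776947, -880585, -16140888],
  ![6047393, -18820059, -3038846],
  ![-12101723, -22255764, -10707331],
  ![19331387, -4733715, 1972201]]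

/-- Upper bounds (multiplied by `10^7`) for the norms of the explicit configuration. -/
def nrm : Fin 13 → ℤ := ![20000004, 20000005, 20000005, 20000005, 20000005, 20000004, 20000004, 20000005, 20000004, 20000005, 20000005, 27503049, 20000004]

/-- The explicit configuration. -/
noncomputable def pt (i : Fin 13) : EuclideanSpace ℝ (Fin 3) :=
  WithLp.toLp 2 (fun k => (cfg i k : ℝ) / 10000000)

lemma cfg_norm : ∀ i, 400000000000000 ≤ cfg i 0 ^ 2 + cfg i 1 ^ 2 + cfg i 2 ^ 2 := by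
  decide +kernel

lemma cfg_norm_le : ∀ i, cfg i 0 ^ 2 + cfg i 1 ^ 2 + cfg i 2 ^ 2 ≤ nrm i ^ 2 := by
  decide +kernel

lemma nrm_nonneg : ∀ i, 0 ≤ nrm i := by
  decide +kernel

lemma cfg_dist : ∀ i j, i ≠ j → 400000000000000 ≤
    (cfg i 0 - cfg j 0) ^ 2 + (cfg i 1 - cfg j 1) ^ 2 + (cfg i 2 - cfg j 2) ^ 2 := by
  decide +kernel

lemma norm_sq (v : EuclideanSpace ℝ (Fin 3)) : ‖v‖ ^ 2 = v 0 ^ 2 + v 1 ^ 2 + v 2 ^ 2 := by
  rw [EuclideanSpace.norm_sq_eq, Fin.sum_univ_three]
  simp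

lemma pt_adm : Admissible pt := by
  refine ⟨fun i => ?_, fun i j hij => ?_⟩
  · have h := norm_sq (pt i)
    have h1 : (400000000000000 : ℝ) ≤ (cfg i 0 : ℝ) ^ 2 + (cfg i 1 : ℝ) ^ 2 + (cfg i 2 : ℝ) ^ 2 := by
      exact_mod_cast cfg_norm i
    have h2 : (2 : ℝ) ^ 2 ≤ ‖pt i‖ ^ 2 := by
      rw [h]
      simp only [pt]
      rw [div_pow, div_pow, div_pow, ← add_div, ← add_div, le_div_iff₀ (by norm_num)]
      linarith
    exact le_of_sq_le_sq h2 (norm_nonneg _)
  · have h := norm_sq (pt i - pt j)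
    have h1 : (400000000000000 : ℝ) ≤ ((cfg i 0 : ℝ) - cfg j 0) ^ 2 + ((cfg i 1 : ℝ) - cfg j 1) ^ 2
        + ((cfg i 2 : ℝ) - cfg j 2) ^ 2 := by
      exact_mod_cast cfg_dist i j hij
    have h2 : (2 : ℝ) ^ 2 ≤ ‖pt i - pt j‖ ^ 2 := by
      rw [h]
      simp only [pt, PiLp.sub_apply]
      rw [← sub_div, ← sub_div, ← sub_div, div_pow, div_pow, div_pow, ← add_div, ← add_div,
        le_div_iff₀ (by norm_num)]
      linarith
    exact le_of_sq_le_sq h2 (norm_nonneg _)

lemma pt_norm_le (i : Fin 13) : ‖pt i‖ ≤ (nrm i : ℝ) / 10000000 := by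
  have h := norm_sq (pt i)
  have h1 : (cfg i 0 : ℝ) ^ 2 + (cfg i 1 : ℝ) ^ 2 + (cfg i 2 : ℝ) ^ 2 ≤ (nrm i : ℝ) ^ 2 := by
    exact_mod_cast cfg_norm_le i
  have h0 : (0 : ℝ) ≤ (nrm i : ℝ) := by exact_mod_cast nrm_nonneg i
  have h2 : ‖pt i‖ ^ 2 ≤ ((nrm i : ℝ) / 10000000) ^ 2 := by
    rw [h]
    simp only [pt]
    rw [div_pow, div_pow, div_pow, div_pow, ← add_div, ← add_div]
    exact div_le_div_of_nonneg_right h1 (by norm_num)
  exact le_of_sq_le_sq h2 (by positivity)

lemma M_pt : M pt ≤ 205772 / 100000 := by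
  have h : ∑ i, ‖pt i‖ ≤ ∑ i : Fin 13, (nrm i : ℝ) / 10000000 :=
    Finset.sum_le_sum (fun i _ => pt_norm_le i)
  have h2 : ∑ i : Fin 13, (nrm i : ℝ) / 10000000 = ((∑ i : Fin 13, nrm i : ℤ) : ℝ) / 10000000 := by
    rw [← Finset.sum_div]
    push_cast
    rfl
  have h3 : (∑ i : Fin 13, nrm i) = 267503104 := by decide +kernel
  rw [h2, h3] at h
  unfold M
  push_cast at h
  linarith

lemma M_ge (x : Fin 13 → EuclideanSpace ℝ (Fin 3)) (hx : Admissible x) : 2002 / 1000 ≤ M x := by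
  have h := Pool.Agent.Helper308.KR.sum_excess x hx.1 hx.2
  rw [Finset.sum_sub_distrib, Finset.sum_const, Finset.card_univ, Fintype.card_fin,
    nsmul_eq_mul] at h
  unfold M
  push_cast at h
  linarith

/-- Every admissible configuration has mean distance at least `2.002`; hence `2.002 ≤ m`.
Moreover `m ≤ 2.05772`. -/
theorem result :
    (∀ x : Fin 13 → EuclideanSpace ℝ (Fin 3), Admissible x → 2002 / 1000 ≤ M x) ∧
      2002 / 1000 ≤ m ∧ m ≤ 205772 / 100000 := by
  refine ⟨M_ge, ?_, ?_⟩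
  · refine le_csInf ⟨_, pt, pt_adm, rfl⟩ ?_
    rintro r ⟨x, hx, rfl⟩
    exact M_ge x hx
  · refine le_trans (csInf_le ⟨2002 / 1000, ?_⟩ ⟨pt, pt_adm, rfl⟩) M_pt
    rintro r ⟨x, hx, rfl⟩
    exact M_ge x hx

end Pool.Agent.Results.MP_a5101a_co.ExplicitBound
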